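import Pool.Agent.H5.Short.Pairs

/-!
Second moment of the number of primes in short intervals.
-/

namespace Pool.Agent.H5.Short

open Finset

/-- number of primes in `(n, n + m]` -/
def pc (n m : ℕ) : ℕ := ((Ioc n (n + m)).filter Nat.Prime).card

theorem pc_eq_sum (n m : ℕ) : (pc n m : ℝ) = ∑ i ∈ Icc 1 m, (if (n + i).Prime then (1 : ℝ) else 0) := by
  unfold pc
  rw [← sum_filter, sum_const, nsmul_eq_mul, mul_one]
  congr 1
  symm
  apply card_bij (fun i _ => n + i)
  · intro i hi
    rw [mem_filter, mem_Icc] at hi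
    rw [mem_filter, mem_Ioc]
    exact ⟨by omega, hi.2⟩
  · intro a _ b _ h
    omega
  · intro b hb
    rw [mem_filter, mem_Ioc] at hb
    refine ⟨b - n, ?_, by omega⟩
    rw [mem_filter, mem_Icc]
    have : n + (b - n) = b := by omega
    rw [this]
    exact ⟨by omega, hb.2⟩

theorem pi_le : ∃ C : ℝ, 0 < C ∧ ∀ X : ℕ, 2 ≤ X →
    (((Icc 1 X).filter Nat.Prime).card : ℝ) ≤ C * X / Real.log X := by
  obtain ⟨C, hC⟩ : ∃ C : ℝ, ∀ x : ℕ, 2 ≤ x → ((Nat.primeCounting x : ℕ) : ℝ) ≤ C * x / Real.log x := by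
    refine ⟨2 * Real.log 4 + 4, ?_⟩
    intro x hx
    have hx1 : (1 : ℝ) < x := by exact_mod_cast (by omega : 1 < x)
    have h := Chebyshev.pi_le_log4_mul_div hx1
    rw [Nat.floor_natCast] at h
    refine h.trans ?_
    have hlog : 0 < Real.log x := Real.log_pos hx1
    have hx0 : (0 : ℝ) < x := by linarith
    have e1 : Real.log (Real.sqrt x) = Real.log x / 2 := Real.log_sqrt hx0.le
    rw [e1, le_div_iff₀ hlog]
    have h2 : Real.log x ≤ 2 * Real.sqrt x := by
      have h3 := Real.log_le_sub_one_of_pos (Real.sqrt_pos.mpr hx0)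
      rw [e1] at h3
      linarith
    have h4 : Real.sqrt x * Real.log x ≤ 2 * x := by
      calc Real.sqrt x * Real.log x ≤ Real.sqrt x * (2 * Real.sqrt x) := by gcongr
        _ = 2 * (Real.sqrt x * Real.sqrt x) := by ring
        _ = 2 * x := by rw [Real.mul_self_sqrt hx0.le]
    have e2 : (Real.log 4 * x / (Real.log x / 2) + Real.sqrt x) * Real.log x =
        2 * Real.log 4 * x + Real.sqrt x * Real.log x := by
      field_simp
    rw [e2]
    nlinarith
  refine ⟨|C| + 1, by positivity, ?_⟩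
  intro X hX
  have hX1 : (1 : ℝ) < X := by exact_mod_cast (by omega : 1 < X)
  have hlog : 0 < Real.log X := Real.log_pos hX1
  have h := hC X hX
  have e : (((Icc 1 X).filter Nat.Prime).card : ℝ) = ((Nat.primeCounting X : ℕ) : ℝ) := by
    congr 1
    rw [Nat.primeCounting, Nat.primeCounting', Nat.count_eq_card_filter_range]
    congr 1
    ext p
    simp only [mem_filter, mem_Icc, mem_range]
    constructor
    · rintro ⟨⟨_, h2⟩, h3⟩
      exact ⟨by omega, h3⟩
    · rintro ⟨h1, h2⟩
      exact ⟨⟨h2.one_lt.le, by omega⟩, h2⟩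
  rw [e]
  refine h.trans ?_
  gcongr
  linarith [le_abs_self C]

/-- Second moment bound. -/
theorem second : ∃ C : ℝ, 0 < C ∧ ∀ X m : ℕ, 2 ≤ X → 1 ≤ m → m ≤ X →
    ∑ n ∈ range X, (pc n m : ℝ) ^ 2 ≤ C * (m * X / Real.log X + (m : ℝ) ^ 2 * X / (Real.log X) ^ 2) := by
  obtain ⟨C1, hC1, hpi⟩ := pi_le
  obtain ⟨C2, hC2, hpairs⟩ := pairs
  obtain ⟨C3, hC3, hw⟩ := sum_weight
  refine ⟨2 * C1 + 4 * C2 * C3, by positivity, ?_⟩
  intro X m hX hm hmX
  have hXR : (2 : ℝ) ≤ X := by exact_mod_cast hX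
  have hX0 : (0 : ℝ) < X := by linarith
  have hlog : 0 < Real.log X := Real.log_pos (by linarith)
  set T : ℕ → ℝ := fun d => (((Icc 1 (2 * X)).filter (fun p => p.Prime ∧ (p + d).Prime)).card : ℝ)
    with hT
  have hT0 : ∀ d, 0 ≤ T d := fun d => Nat.cast_nonneg _
  set N : ℕ → ℕ → ℝ := fun i i' => ∑ n ∈ range X,
    (if (n + i).Prime then (1 : ℝ) else 0) * (if (n + i').Prime then (1 : ℝ) else 0) with hN
  have hNsymm : ∀ i i', N i i' = N i' i := by
    intro i i'
    simp only [hN]
    apply sum_congr rfl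
    intro n _
    ring
  have hNlt : ∀ i i', 1 ≤ i → i ≤ m → i < i' → N i i' ≤ T (i' - i) := by
    intro i i' hi him hii'
    simp only [hN, hT]
    have e : ∀ n ∈ range X, (if (n + i).Prime then (1 : ℝ) else 0) *
        (if (n + i').Prime then (1 : ℝ) else 0) =
        if ((n + i).Prime ∧ (n + i').Prime) then (1 : ℝ) else 0 := by
      intro n _
      by_cases h1 : (n + i).Prime <;> by_cases h2 : (n + i').Prime <;> simp [h1, h2]
    rw [sum_congr rfl e, ← sum_filter, sum_const, nsmul_eq_mul, mul_one]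
    norm_cast
    apply card_le_card_of_injOn (fun n => n + i)
    · intro n hn
      simp only [coe_filter, mem_range, Set.mem_setOf_eq] at hn
      simp only [coe_filter, mem_Icc, Set.mem_setOf_eq]
      refine ⟨by omega, hn.2.1, ?_⟩
      have : n + i + (i' - i) = n + i' := by omega
      rw [this]
      exact hn.2.2
    · intro a _ b _ h
      simp only at h
      omega
  have hNeq : ∀ i, 1 ≤ i → i ≤ m → N i i ≤ 2 * C1 * X / Real.log X := by
    intro i hi him
    have h1 : N i i ≤ (((Icc 1 (2 * X)).filter Nat.Prime).card : ℝ) := by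
      simp only [hN]
      have e : ∀ n ∈ range X, (if (n + i).Prime then (1 : ℝ) else 0) *
          (if (n + i).Prime then (1 : ℝ) else 0) = if (n + i).Prime then (1 : ℝ) else 0 := by
        intro n _
        by_cases h1 : (n + i).Prime <;> simp [h1]
      rw [sum_congr rfl e, ← sum_filter, sum_const, nsmul_eq_mul, mul_one]
      norm_cast
      apply card_le_card_of_injOn (fun n => n + i)
      · intro n hn
        simp only [coe_filter, mem_range, Set.mem_setOf_eq] at hn
        simp only [coe_filter, mem_Icc, Set.mem_setOf_eq]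
        exact ⟨by omega, hn.2⟩
      · intro a _ b _ h
        simp only at h
        omega
    refine h1.trans ((hpi (2 * X) (by omega)).trans ?_)
    push_cast
    have h2 : Real.log X ≤ Real.log (2 * X) := Real.log_le_log hX0 (by linarith)
    rw [show C1 * (2 * (X : ℝ)) = 2 * C1 * X by ring]
    gcongr
  have hsumT : ∑ d ∈ Icc 1 m, T d ≤ 2 * C2 * C3 * m * X / (Real.log X) ^ 2 := by
    have h1 : ∀ d ∈ Icc 1 m, T d ≤ (2 * C2 * X / (Real.log X) ^ 2) *
        (1 + ∑ p ∈ (2 * d).primeFactors, 1 / Real.sqrt p) := by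
      intro d hd
      rw [mem_Icc] at hd
      have h2 := hpairs (2 * X) d (by omega) hd.1 (by omega)
      simp only [hT]
      refine h2.trans ?_
      push_cast
      have h3 : Real.log X ≤ Real.log (2 * X) := Real.log_le_log hX0 (by linarith)
      have h4 : 0 ≤ ∑ p ∈ (2 * d).primeFactors, 1 / Real.sqrt p :=
        sum_nonneg fun p _ => by positivity
      rw [show C2 * (1 + ∑ p ∈ (2 * d).primeFactors, 1 / Real.sqrt p) * (2 * (X : ℝ)) =
        (2 * C2 * X) * (1 + ∑ p ∈ (2 * d).primeFactors, 1 / Real.sqrt p) by ring,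
        div_mul_eq_mul_div]
      gcongr
    refine (sum_le_sum h1).trans ?_
    rw [← mul_sum]
    calc (2 * C2 * X / (Real.log X) ^ 2) *
        ∑ d ∈ Icc 1 m, (1 + ∑ p ∈ (2 * d).primeFactors, 1 / Real.sqrt p)
        ≤ (2 * C2 * X / (Real.log X) ^ 2) * (C3 * m) := by
          gcongr
          exact hw m
      _ = _ := by ring
  have hrow : ∀ i ∈ Icc 1 m, ∑ i' ∈ Icc 1 m, N i i' ≤
      2 * C1 * X / Real.log X + 2 * (2 * C2 * C3 * m * X / (Real.log X) ^ 2) := by
    intro i hi
    rw [mem_Icc] at hi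
    have hsplit : ∑ i' ∈ Icc 1 m, N i i' = ∑ i' ∈ (Icc 1 m).filter (fun i' => i' < i), N i i' +
        (N i i + ∑ i' ∈ (Icc 1 m).filter (fun i' => i < i'), N i i') := by
      rw [← sum_filter_add_sum_filter_not (Icc 1 m) (fun i' => i' < i)]
      congr 1
      rw [← sum_filter_add_sum_filter_not ((Icc 1 m).filter (fun i' => ¬ i' < i)) (fun i' => i' = i)]
      congr 1
      · have : ((Icc 1 m).filter (fun i' => ¬ i' < i)).filter (fun i' => i' = i) = {i} := by
          ext k
          simp only [mem_filter, mem_Icc, mem_singleton]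
          omega
        rw [this, sum_singleton]
      · congr 1
        ext k
        simp only [mem_filter, mem_Icc]
        omega
    have hA : ∑ i' ∈ (Icc 1 m).filter (fun i' => i' < i), N i i' ≤ ∑ d ∈ Icc 1 m, T d := by
      apply W.sum_le_of_injOn _ _ (fun i' => i - i')
      · intro i' hi'
        rw [mem_filter, mem_Icc] at hi'
        rw [mem_Icc]
        omega
      · intro a ha b hb h
        simp only [coe_filter, mem_Icc, Set.mem_setOf_eq] at ha hb
        simp only at h
        omega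
      · intro i' hi'
        rw [mem_filter, mem_Icc] at hi'
        rw [hNsymm]
        exact hNlt i' i hi'.1.1 hi'.1.2 hi'.2
      · intro d _; exact hT0 d
    have hB : ∑ i' ∈ (Icc 1 m).filter (fun i' => i < i'), N i i' ≤ ∑ d ∈ Icc 1 m, T d := by
      apply W.sum_le_of_injOn _ _ (fun i' => i' - i)
      · intro i' hi'
        rw [mem_filter, mem_Icc] at hi'
        rw [mem_Icc]
        omega
      · intro a ha b hb h
        simp only [coe_filter, mem_Icc, Set.mem_setOf_eq] at ha hb
        simp only at h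
        omega
      · intro i' hi'
        rw [mem_filter, mem_Icc] at hi'
        exact hNlt i i' hi.1 hi.2 hi'.2
      · intro d _; exact hT0 d
    have hC := hNeq i hi.1 hi.2
    rw [hsplit]
    linarith
  have hexpand : ∑ n ∈ range X, (pc n m : ℝ) ^ 2 = ∑ i ∈ Icc 1 m, ∑ i' ∈ Icc 1 m, N i i' := by
    have e1 : ∀ n ∈ range X, (pc n m : ℝ) ^ 2 = ∑ i ∈ Icc 1 m, ∑ i' ∈ Icc 1 m,
        (if (n + i).Prime then (1 : ℝ) else 0) * (if (n + i').Prime then (1 : ℝ) else 0) := by
      intro n _
      rw [pc_eq_sum, sq, sum_mul_sum]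
    rw [sum_congr rfl e1, sum_comm]
    apply sum_congr rfl
    intro i _
    rw [sum_comm]
  rw [hexpand]
  refine (sum_le_sum hrow).trans ?_
  rw [sum_const, Nat.card_Icc, nsmul_eq_mul]
  have hmR : ((m + 1 - 1 : ℕ) : ℝ) = m := by simp
  rw [hmR]
  have hm0 : (0 : ℝ) ≤ m := Nat.cast_nonneg m
  have h1 : 0 ≤ (m : ℝ) * X / Real.log X := by positivity
  have h2 : 0 ≤ (m : ℝ) ^ 2 * X / (Real.log X) ^ 2 := by positivity
  have e : (m : ℝ) * (2 * C1 * X / Real.log X + 2 * (2 * C2 * C3 * m * X / (Real.log X) ^ 2)) =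
      2 * C1 * (m * X / Real.log X) + 4 * C2 * C3 * ((m : ℝ) ^ 2 * X / (Real.log X) ^ 2) := by ring
  rw [e]
  have h3 : 0 < 4 * C2 * C3 := by positivity
  nlinarith [mul_nonneg h3.le h1, mul_nonneg hC1.le h2]

end Pool.Agent.H5.Short
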