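import Pool.Agent.H5.W.PairSieve

/-!
Upper bounds for the number of prime pairs and for the second moment of the number of primes in
short intervals.
-/

namespace Pool.Agent.H5.Short

open Finset Pool.Agent.H5.W

theorem log_sq_le (x : ℝ) (hx : 1 ≤ x) : (Real.log x) ^ 2 ≤ 100 * x ^ ((1 : ℝ) / 5) := by
  have h0 : 0 ≤ x := by linarith
  have h1 : Real.log x ≤ x ^ ((1 : ℝ) / 10) / (1 / 10) :=
    Real.log_le_rpow_div h0 (by norm_num)
  have h2 : 0 ≤ Real.log x := Real.log_nonneg hx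
  have h3 : (x ^ ((1 : ℝ) / 10)) ^ 2 = x ^ ((1 : ℝ) / 5) := by
    rw [← Real.rpow_natCast, ← Real.rpow_mul h0]; norm_num
  calc (Real.log x) ^ 2 ≤ (x ^ ((1 : ℝ) / 10) / (1 / 10)) ^ 2 := by gcongr
    _ = 100 * (x ^ ((1 : ℝ) / 10)) ^ 2 := by ring
    _ = 100 * x ^ ((1 : ℝ) / 5) := by rw [h3]

theorem pairs : ∃ C : ℝ, 0 < C ∧ ∀ X d : ℕ, 2 ≤ X → 1 ≤ d → d ≤ X →
    (((Icc 1 X).filter (fun p => p.Prime ∧ (p + d).Prime)).card : ℝ) ≤
      C * (1 + ∑ p ∈ (2 * d).primeFactors, 1 / Real.sqrt p) * X / (Real.log X) ^ 2 := by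
  obtain ⟨C0, hC0, hps⟩ := pair_sieve
  obtain ⟨C1, hC1, hU⟩ := lemmaU 2
  refine ⟨200 + 200 * C0 * C1, by positivity, ?_⟩
  intro X d hX hd hdX
  have hXR : (2 : ℝ) ≤ X := by exact_mod_cast hX
  have hX0 : (0 : ℝ) < X := by linarith
  have hlog : 0 < Real.log X := Real.log_pos (by linarith)
  have hlogsq := log_sq_le X (by linarith)
  have hsum0 : 0 ≤ ∑ p ∈ (2 * d).primeFactors, 1 / Real.sqrt p :=
    sum_nonneg fun p _ => by positivity
  have hcardX : (((Icc 1 X).filter (fun p => p.Prime ∧ (p + d).Prime)).card : ℝ) ≤ X := by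
    have : ((Icc 1 X).filter (fun p => p.Prime ∧ (p + d).Prime)).card ≤ X := by
      calc _ ≤ (Icc 1 X).card := card_le_card (filter_subset _ _)
        _ = X := by rw [Nat.card_Icc]; omega
    exact_mod_cast this
  rcases lt_or_ge X 32 with hsmall | hlarge
  · -- small X
    refine hcardX.trans ?_
    rw [le_div_iff₀ (by positivity)]
    have h1 : (Real.log X) ^ 2 ≤ 200 := by
      have h2 : (X : ℝ) ^ ((1 : ℝ) / 5) ≤ 2 := by
        have h3 : (X : ℝ) ≤ 32 := by exact_mod_cast hsmall.le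
        calc (X : ℝ) ^ ((1 : ℝ) / 5) ≤ (32 : ℝ) ^ ((1 : ℝ) / 5) := by gcongr
          _ = 2 := by
            rw [show (32 : ℝ) = 2 ^ (5 : ℝ) by norm_num, ← Real.rpow_mul (by norm_num)]
            norm_num
      linarith
    have h4 : 200 ≤ (200 + 200 * C0 * C1) * (1 + ∑ p ∈ (2 * d).primeFactors, 1 / Real.sqrt p) := by
      have : 0 ≤ 200 * C0 * C1 := by positivity
      nlinarith
    calc (X : ℝ) * (Real.log X) ^ 2 ≤ X * 200 := by gcongr
      _ ≤ X * ((200 + 200 * C0 * C1) * (1 + ∑ p ∈ (2 * d).primeFactors, 1 / Real.sqrt p)) := by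
          gcongr
      _ = _ := by ring
  · -- large X
    set J : ℕ := ⌊(X : ℝ) ^ ((1 : ℝ) / 5)⌋₊ with hJdef
    have hroot0 : (0 : ℝ) ≤ (X : ℝ) ^ ((1 : ℝ) / 5) := by positivity
    have hroot : ((X : ℝ) ^ ((1 : ℝ) / 5)) ^ 5 = X := by
      rw [← Real.rpow_natCast, ← Real.rpow_mul hX0.le]; norm_num
    have hJ2 : 2 ≤ J := by
      rw [hJdef]
      apply Nat.le_floor
      push_cast
      calc (2 : ℝ) = (32 : ℝ) ^ ((1 : ℝ) / 5) := by
            rw [show (32 : ℝ) = 2 ^ (5 : ℝ) by norm_num, ← Real.rpow_mul (by norm_num)]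
            norm_num
        _ ≤ (X : ℝ) ^ ((1 : ℝ) / 5) := by
            apply Real.rpow_le_rpow (by norm_num) (by exact_mod_cast hlarge) (by norm_num)
    have hJle : (J : ℝ) ≤ (X : ℝ) ^ ((1 : ℝ) / 5) := Nat.floor_le hroot0
    have hJlt : (X : ℝ) ^ ((1 : ℝ) / 5) < J + 1 := Nat.lt_floor_add_one _
    have hJR : (2 : ℝ) ≤ J := by exact_mod_cast hJ2
    have hlogJ : 0 < Real.log J := Real.log_pos (by linarith)
    have hXJ : (X : ℝ) ≤ (J : ℝ) ^ 10 := by
      calc (X : ℝ) = ((X : ℝ) ^ ((1 : ℝ) / 5)) ^ 5 := hroot.symm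
        _ ≤ ((J : ℝ) + 1) ^ 5 := by gcongr
        _ ≤ ((J : ℝ) ^ 2) ^ 5 := by
            gcongr
            nlinarith
        _ = (J : ℝ) ^ 10 := by ring
    have hlogXJ : Real.log X ≤ 10 * Real.log J := by
      have := Real.log_le_log hX0 hXJ
      rw [Real.log_pow] at this
      push_cast at this
      exact this
    have hJ4 : (J : ℝ) ^ 4 ≤ 100 * X / (Real.log X) ^ 2 := by
      rw [le_div_iff₀ (by positivity)]
      calc (J : ℝ) ^ 4 * (Real.log X) ^ 2 ≤
          ((X : ℝ) ^ ((1 : ℝ) / 5)) ^ 4 * (100 * (X : ℝ) ^ ((1 : ℝ) / 5)) := by gcongr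
        _ = 100 * ((X : ℝ) ^ ((1 : ℝ) / 5)) ^ 5 := by ring
        _ = 100 * X := by rw [hroot]
    -- the set
    set S : Finset ℕ := ((Icc 1 X).filter (fun p => p.Prime ∧ (p + d).Prime ∧ J < p)).image
      (fun p => p + d) with hS
    have hScard : S.card = ((Icc 1 X).filter (fun p => p.Prime ∧ (p + d).Prime ∧ J < p)).card := by
      rw [hS]
      apply card_image_of_injective
      intro a b h
      simpa using h
    have hsplit : ((Icc 1 X).filter (fun p => p.Prime ∧ (p + d).Prime)).card ≤ J + S.card := by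
      rw [hScard]
      have hsub : (Icc 1 X).filter (fun p => p.Prime ∧ (p + d).Prime) ⊆
          Icc 1 J ∪ (Icc 1 X).filter (fun p => p.Prime ∧ (p + d).Prime ∧ J < p) := by
        intro p hp
        rw [mem_filter, mem_Icc] at hp
        rw [mem_union, mem_filter, mem_Icc, mem_Icc]
        by_cases h : p ≤ J
        · left; exact ⟨hp.1.1, h⟩
        · right; exact ⟨hp.1, hp.2.1, hp.2.2, by omega⟩
      refine (card_le_card hsub).trans ((card_union_le _ _).trans ?_)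
      rw [Nat.card_Icc]
      omega
    have hkey := hps J d 0 1 1 (2 * X) hJ2 one_pos one_pos (by omega) S (by
      intro v hv
      rw [hS, mem_image] at hv
      obtain ⟨p, hp, rfl⟩ := hv
      rw [mem_filter, mem_Icc] at hp
      obtain ⟨⟨h1, h2⟩, h3, h4, h5⟩ := hp
      exact ⟨by omega, by omega, p, p + d, h3, h4, h5, by omega, by ring, by ring⟩)
    have hE : EE d 0 1 1 = 2 * d := by
      unfold EE
      simp
    rw [hE] at hkey
    have hrz : (rhoz J (2 * d)) ^ 2 ≤ C1 * (1 + ∑ p ∈ (2 * d).primeFactors, 1 / Real.sqrt p) := by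
      have h1 := rhoz_le_rho J (2 * d) (by omega)
      have h2 := hU (2 * d).primeFactors (fun p hp => Nat.prime_of_mem_primeFactors hp)
      have h3 := (rhoz_pos J (2 * d)).le
      calc (rhoz J (2 * d)) ^ 2 ≤ (rho (2 * d)) ^ 2 := by gcongr
        _ ≤ _ := h2
    have hkey2 : (S.card : ℝ) ≤ 200 * C0 * C1 * (1 + ∑ p ∈ (2 * d).primeFactors, 1 / Real.sqrt p) *
        X / (Real.log X) ^ 2 + (J : ℝ) ^ 4 := by
      refine hkey.trans ?_
      gcongr ?_ + _
      have e1 : C0 * (((2 * X : ℕ) : ℝ) * (Nat.gcd 1 1) / (((1 : ℕ) : ℝ) * ((1 : ℕ) : ℝ))) *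
          rhoz J (2 * d) ^ 2 / Real.log J ^ 2 =
          (2 * C0 * X) * (rhoz J (2 * d) ^ 2) / Real.log J ^ 2 := by
        push_cast
        simp
        ring
      rw [e1, div_le_div_iff₀ (by positivity) (by positivity)]
      have h5 : (Real.log X) ^ 2 ≤ 100 * (Real.log J) ^ 2 := by
        calc (Real.log X) ^ 2 ≤ (10 * Real.log J) ^ 2 := by gcongr
          _ = _ := by ring
      calc (2 * C0 * X) * (rhoz J (2 * d) ^ 2) * (Real.log X) ^ 2
          ≤ (2 * C0 * X) * (C1 * (1 + ∑ p ∈ (2 * d).primeFactors, 1 / Real.sqrt p)) *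
            (100 * (Real.log J) ^ 2) := by gcongr
        _ = _ := by ring
    have hJJ : (J : ℝ) ≤ (J : ℝ) ^ 4 := by
      calc (J : ℝ) = (J : ℝ) ^ 1 := (pow_one _).symm
        _ ≤ (J : ℝ) ^ 4 := pow_le_pow_right₀ (by linarith) (by norm_num)
    have hfin : (((Icc 1 X).filter (fun p => p.Prime ∧ (p + d).Prime)).card : ℝ) ≤
        (J : ℝ) + S.card := by exact_mod_cast hsplit
    have h200 : 200 * X / (Real.log X) ^ 2 ≤
        200 * (1 + ∑ p ∈ (2 * d).primeFactors, 1 / Real.sqrt p) * X / (Real.log X) ^ 2 := by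
      gcongr
      nlinarith
    calc (((Icc 1 X).filter (fun p => p.Prime ∧ (p + d).Prime)).card : ℝ)
        ≤ (J : ℝ) + S.card := hfin
      _ ≤ 2 * (J : ℝ) ^ 4 + 200 * C0 * C1 * (1 + ∑ p ∈ (2 * d).primeFactors, 1 / Real.sqrt p) *
            X / (Real.log X) ^ 2 := by linarith
      _ ≤ 2 * (100 * X / (Real.log X) ^ 2) + 200 * C0 * C1 *
            (1 + ∑ p ∈ (2 * d).primeFactors, 1 / Real.sqrt p) * X / (Real.log X) ^ 2 := by
          gcongr
      _ = 200 * X / (Real.log X) ^ 2 + 200 * C0 * C1 *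
            (1 + ∑ p ∈ (2 * d).primeFactors, 1 / Real.sqrt p) * X / (Real.log X) ^ 2 := by ring
      _ ≤ 200 * (1 + ∑ p ∈ (2 * d).primeFactors, 1 / Real.sqrt p) * X / (Real.log X) ^ 2 +
            200 * C0 * C1 * (1 + ∑ p ∈ (2 * d).primeFactors, 1 / Real.sqrt p) * X /
            (Real.log X) ^ 2 := by linarith
      _ = _ := by ring

/-- average of the singular factor -/
theorem sum_weight : ∃ C : ℝ, 0 < C ∧ ∀ m : ℕ, 
    ∑ d ∈ Icc 1 m, (1 + ∑ p ∈ (2 * d).primeFactors, 1 / Real.sqrt p) ≤ C * m := by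
  have hsum : Summable (fun n : ℕ => 1 / (n : ℝ) ^ ((3 : ℝ) / 2)) :=
    Real.summable_one_div_nat_rpow.mpr (by norm_num)
  set Z := ∑' n : ℕ, 1 / (n : ℝ) ^ ((3 : ℝ) / 2) with hZ
  have hZ0 : 0 ≤ Z := tsum_nonneg fun n => by positivity
  refine ⟨2 + Z, by positivity, ?_⟩
  intro m
  have h1 : ∀ d ∈ Icc 1 m, (1 + ∑ p ∈ (2 * d).primeFactors, 1 / Real.sqrt p) ≤
      2 + ∑ p ∈ Icc 1 m, (if p ∣ d then 1 / Real.sqrt p else 0) := by
    intro d hd
    rw [mem_Icc] at hd
    have h2 : (2 * d).primeFactors ⊆ insert 1 ((Icc 1 m).filter (fun p => p ∣ d) ) ∪ {2} := by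
      intro p hp
      rw [Nat.mem_primeFactors] at hp
      rw [mem_union, mem_insert, mem_filter, mem_Icc, mem_singleton]
      rcases (Nat.Prime.dvd_mul hp.1).mp hp.2.1 with h | h
      · right
        exact (Nat.prime_dvd_prime_iff_eq hp.1 Nat.prime_two).mp h
      · left; right
        exact ⟨⟨hp.1.one_lt.le, (Nat.le_of_dvd (by omega) h).trans hd.2⟩, h⟩
    have h3 : (2 * d).primeFactors ⊆ ((Icc 1 m).filter (fun p => p ∣ d)) ∪ {2} := by
      intro p hp
      have := h2 hp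
      have hp1 := (Nat.prime_of_mem_primeFactors hp).one_lt
      rw [mem_union, mem_insert] at this
      rw [mem_union]
      rcases this with (h | h) | h
      · omega
      · left; exact h
      · right; exact h
    have h4 : ∑ p ∈ (2 * d).primeFactors, 1 / Real.sqrt p ≤
        ∑ p ∈ (Icc 1 m).filter (fun p => p ∣ d), 1 / Real.sqrt p + 1 := by
      calc ∑ p ∈ (2 * d).primeFactors, 1 / Real.sqrt p
          ≤ ∑ p ∈ ((Icc 1 m).filter (fun p => p ∣ d)) ∪ {2}, 1 / Real.sqrt p :=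
            sum_le_sum_of_subset_of_nonneg h3 fun p _ _ => by positivity
        _ ≤ ∑ p ∈ (Icc 1 m).filter (fun p => p ∣ d), 1 / Real.sqrt p +
            ∑ p ∈ ({2} : Finset ℕ), 1 / Real.sqrt p := by
            have := sum_union_inter (s₁ := (Icc 1 m).filter (fun p => p ∣ d))
              (s₂ := ({2} : Finset ℕ)) (f := fun p : ℕ => 1 / Real.sqrt p)
            have h5 : 0 ≤ ∑ p ∈ (Icc 1 m).filter (fun p => p ∣ d) ∩ ({2} : Finset ℕ),
                1 / Real.sqrt (p : ℝ) := sum_nonneg fun p _ => by positivity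
            linarith
        _ ≤ _ := by
            rw [sum_singleton]
            gcongr
            rw [div_le_one (by positivity)]
            apply Real.one_le_sqrt.mpr
            norm_num
    rw [sum_filter] at h4
    linarith
  refine (sum_le_sum h1).trans ?_
  rw [sum_add_distrib, sum_comm]
  have h6 : ∀ p ∈ Icc 1 m, ∑ d ∈ Icc 1 m, (if p ∣ d then 1 / Real.sqrt p else 0) ≤
      (m : ℝ) * (1 / (p : ℝ) ^ ((3 : ℝ) / 2)) := by
    intro p hp
    rw [mem_Icc] at hp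
    have hp0 : (0 : ℝ) < p := by exact_mod_cast hp.1
    rw [← sum_filter, sum_const, nsmul_eq_mul]
    have h7 : (((Icc 1 m).filter (fun d => p ∣ d)).card : ℝ) ≤ m / p := by
      have h8 : ((Icc 1 m).filter (fun d => p ∣ d)).card = m / p := by
        have : Icc 1 m = Ioc 0 m := by ext k; simp [Nat.succ_le_iff]
        rw [this, Nat.Ioc_filter_dvd_card_eq_div]
      rw [h8]
      exact Nat.cast_div_le
    have h9 : (p : ℝ) ^ ((3 : ℝ) / 2) = p * Real.sqrt p := by
      rw [Real.sqrt_eq_rpow, show (3 : ℝ) / 2 = 1 + 1 / 2 by norm_num, Real.rpow_add hp0,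
        Real.rpow_one]
    rw [h9]
    calc (((Icc 1 m).filter (fun d => p ∣ d)).card : ℝ) * (1 / Real.sqrt p)
        ≤ (m / p) * (1 / Real.sqrt p) := by gcongr
      _ = _ := by field_simp
  have h10 : ∑ p ∈ Icc 1 m, (m : ℝ) * (1 / (p : ℝ) ^ ((3 : ℝ) / 2)) ≤ m * Z := by
    rw [← mul_sum]
    gcongr
    exact hsum.sum_le_tsum (Icc 1 m) (fun n _ => by positivity)
  have h11 : ∑ _d ∈ Icc 1 m, (2 : ℝ) = 2 * m := by
    rw [sum_const, Nat.card_Icc, nsmul_eq_mul]
    simp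
    ring
  rw [h11]
  have := (sum_le_sum h6).trans h10
  linarith

end Pool.Agent.H5.Short
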